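import Pool.Agent.K9h63.AED.Final

set_option autoImplicit false

/-!
# Almost-equidistant sets of diameter one have at most `2 d + 1` points, and this is
# asymptotically sharp

`g d` is the largest cardinality of a finite set of points of `ℝ^d` of diameter one in which any
three distinct points contain two at distance one. The theorem: `g d` exists for `d ≥ 1`,
`2 d - 9 d^(3/4) ≤ g d ≤ 2 d + 1`, so `g d / d` tends to `2`, and `g 1 = 3`, `g 2 = 5`.
-/

namespace Pool.Agent.Results.MP_8e9e20_co.AsymptoticallyTwiceTheDimension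

open Filter

/-- `V` is an almost-equidistant diameter set of `ℝ^d`: among any three distinct points of `V`
two are at distance exactly `1`, and the diameter of `V` is `1`. -/
def IsAlmostEquidistantDiameterSet (d : ℕ) (V : Finset (EuclideanSpace ℝ (Fin d))) : Prop :=
  (∀ x ∈ V, ∀ y ∈ V, ∀ z ∈ V, x ≠ y → x ≠ z → y ≠ z →
    dist x y = 1 ∨ dist x z = 1 ∨ dist y z = 1) ∧
  Metric.diam (V : Set (EuclideanSpace ℝ (Fin d))) = 1

theorem result : ∃ g : ℕ → ℕ,
    (∀ d : ℕ, 1 ≤ d → IsGreatest {n : ℕ | ∃ V : Finset (EuclideanSpace ℝ (Fin d)),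
      IsAlmostEquidistantDiameterSet d V ∧ V.card = n} (g d)) ∧
    (∀ d : ℕ, 1 ≤ d → g d ≤ 2 * d + 1) ∧
    (∀ d : ℕ, 1 ≤ d → 2 * (d : ℝ) - 9 * (d : ℝ) ^ (3 / 4 : ℝ) ≤ g d) ∧
    g 1 = 3 ∧ g 2 = 5 ∧
    Tendsto (fun d : ℕ => (g d : ℝ) / d) atTop (nhds 2) := by
  classical
  have hup : ∀ (d : ℕ) (V : Finset (EuclideanSpace ℝ (Fin d))),
      IsAlmostEquidistantDiameterSet d V → V.card ≤ 2 * d + 1 :=
    fun d V hV => K9h63.AED.card_le hV
  have hex : ∀ d : ℕ, 1 ≤ d → ∃ x : ℕ, IsGreatest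
      {n : ℕ | ∃ V : Finset (EuclideanSpace ℝ (Fin d)),
        IsAlmostEquidistantDiameterSet d V ∧ V.card = n} x := by
    intro d hd
    apply BddAbove.exists_isGreatest_of_nonempty
    · refine ⟨2 * d + 1, ?_⟩
      rintro n ⟨V, hV, rfl⟩
      exact hup d V hV
    · obtain ⟨V, hV, hc⟩ := K9h63.AED.exists_two hd
      exact ⟨2, V, hV, hc⟩
  let g : ℕ → ℕ := fun d => if h : 1 ≤ d then (hex d h).choose else 0
  have hg : ∀ d : ℕ, 1 ≤ d → IsGreatest {n : ℕ | ∃ V : Finset (EuclideanSpace ℝ (Fin d)),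
      IsAlmostEquidistantDiameterSet d V ∧ V.card = n} (g d) := by
    intro d hd
    have : g d = (hex d hd).choose := dif_pos hd
    rw [this]
    exact (hex d hd).choose_spec
  have h1 : ∀ d : ℕ, 1 ≤ d → g d ≤ 2 * d + 1 := by
    intro d hd
    obtain ⟨V, hV, hc⟩ := (hg d hd).1
    rw [← hc]
    exact hup d V hV
  have h2 : ∀ d : ℕ, 1 ≤ d → 2 * (d : ℝ) - 9 * (d : ℝ) ^ (3 / 4 : ℝ) ≤ g d := by
    intro d hd
    obtain ⟨n, hn, hle⟩ := K9h63.AED.conf_lower d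
    obtain ⟨V, hV, hc⟩ := hn.exists hd
    have h3 : V.card ≤ g d := (hg d hd).2 ⟨V, hV, rfl⟩
    have h4 : (n : ℝ) ≤ g d := by exact_mod_cast hc.trans h3
    linarith
  refine ⟨g, hg, h1, h2, ?_, ?_, ?_⟩
  · apply le_antisymm (h1 1 le_rfl)
    obtain ⟨V, hV, hc⟩ := K9h63.AED.exists_three
    exact (hg 1 le_rfl).2 ⟨V, hV, hc⟩
  · apply le_antisymm (h1 2 (by norm_num))
    obtain ⟨V, hV, hc⟩ := K9h63.AED.exists_five
    exact (hg 2 (by norm_num)).2 ⟨V, hV, hc⟩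
  · have hlo : Tendsto (fun d : ℕ => 2 - 9 * ((d : ℝ) ^ (-(1 / 4) : ℝ))) atTop (nhds 2) := by
      have h3 : Tendsto (fun d : ℕ => (d : ℝ) ^ (-(1 / 4) : ℝ)) atTop (nhds 0) :=
        (tendsto_rpow_neg_atTop (by norm_num : (0 : ℝ) < 1 / 4)).comp tendsto_natCast_atTop_atTop
      have h4 := (h3.const_mul 9).const_sub 2
      simpa using h4
    have hhi : Tendsto (fun d : ℕ => 2 + 1 / (d : ℝ)) atTop (nhds 2) := by
      have h4 := tendsto_one_div_atTop_nhds_zero_nat.const_add (2 : ℝ)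
      simpa using h4
    refine tendsto_of_tendsto_of_tendsto_of_le_of_le' hlo hhi ?_ ?_
    · filter_upwards [eventually_ge_atTop 1] with d hd
      have hd0 : (0 : ℝ) < d := by exact_mod_cast hd
      rw [le_div_iff₀ hd0]
      have h5 : (d : ℝ) ^ (-(1 / 4) : ℝ) * d = (d : ℝ) ^ (3 / 4 : ℝ) := by
        nth_rewrite 2 [← Real.rpow_one (d : ℝ)]
        rw [← Real.rpow_add hd0]
        norm_num
      calc (2 - 9 * (d : ℝ) ^ (-(1 / 4) : ℝ)) * d =
          2 * (d : ℝ) - 9 * ((d : ℝ) ^ (-(1 / 4) : ℝ) * d) := by ring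
        _ = 2 * (d : ℝ) - 9 * (d : ℝ) ^ (3 / 4 : ℝ) := by rw [h5]
        _ ≤ g d := h2 d hd
    · filter_upwards [eventually_ge_atTop 1] with d hd
      have hd0 : (0 : ℝ) < d := by exact_mod_cast hd
      rw [div_le_iff₀ hd0]
      have h6 : (g d : ℝ) ≤ 2 * d + 1 := by exact_mod_cast h1 d hd
      calc (g d : ℝ) ≤ 2 * d + 1 := h6
        _ = (2 + 1 / (d : ℝ)) * d := by
            field_simp

end Pool.Agent.Results.MP_8e9e20_co.AsymptoticallyTwiceTheDimension
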